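import Mathlib
import Pool.Agent.W548.Tt.Final

/-!
# Slope types whose Tate classes are generated by pairings
-/

set_option linter.unusedSectionVars false
set_option linter.unusedVariables false

namespace Pool.Agent.TH170.FF

open NumberField Module Pool.Agent.H925R2 Pool.Agent.H485R3 Pool.Agent.H204R3.CM
  Pool.Agent.H868R3.TwoOdd Pool.Agent.W548.Ab Pool.Agent.W548.Sh Pool.Agent.W548.Tt

variable {I : Type} [Fintype I] (p : ℕ) [Fact p.Prime] (K : I → Type) [∀ i, Field (K i)]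
  [∀ i, NumberField (K i)] [∀ i, IsCMField (K i)]

open Classical in
/-- All Tate classes in at most `k` variables are generated by pairings, if no word of at most `k`
letters that is not a union of pairs of conjugate letters has translates with vanishing weighted
sign sums. -/
theorem tateUpTo_of_free {L : Type} [Field L] [NumberField L] [IsGalois ℚ L] (j : L →+* ℂ)
    (hj : ∀ i, ∀ ψ : K i →+* ℂ, ∃ φ : K i →+* L, j.comp φ = ψ) (e : L →ₐ[ℚ] PadicAlgCl p)
    (k : ℕ) (hk : 2 ≤ k) (M : ∀ i, (K i →+* PadicAlgCl p) → ℝ)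
    (hM : ∀ i τ, M i (cbar τ) = M i τ) (hM0 : ∀ i τ, M i τ ≠ 0)
    (Φ : ∀ i, Set (K i →+* PadicAlgCl p)) (hΦ : ∀ i, IsPadicType p (Φ i))
    (S : Finset (Σ i, (K i →+* L)))
    (hmem : ∀ x : (Σ i, (K i →+* L)), x ∈ S ↔ (e : L →+* PadicAlgCl p).comp x.2 ∈ Φ x.1)
    (hfree : ∀ {n : ℕ} (_ : n ≤ k) (x : Fin n → (Σ i, (K i →+* L))),
        (∀ σ : L ≃ₐ[ℚ] L, ∑ b, ws (fun x : (Σ i, (K i →+* L)) =>
          M x.1 ((e : L →+* PadicAlgCl p).comp x.2)) S (σ • x b) = 0) → ∀ y : (Σ i, (K i →+* L)),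
          (Finset.univ.filter (fun b => x b = y)).card =
            (Finset.univ.filter (fun b => x b = (⟨y.1, cbar y.2⟩ : Σ i, (K i →+* L)))).card) :
    TateUpTo p K M Φ k := by
  classical
  let X : Type _ := Σ i, (K i →+* L)
  let inv : X → X := fun x => ⟨x.1, cbar x.2⟩
  have hinv : ∀ x, inv (inv x) = x := by
    rintro ⟨i, φ⟩
    simp only [inv, cbar_cbar]
  have hcomm : ∀ (σ : L ≃ₐ[ℚ] L) (x : X), inv (σ • x) = σ • inv x := by
    rintro σ ⟨i, φ⟩
    rfl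
  let ML : X → ℝ := fun x => M x.1 ((e : L →+* PadicAlgCl p).comp x.2)
  have hML : ∀ x, ML (inv x) = ML x := by
    rintro ⟨i, φ⟩
    exact hM i ((e : L →+* PadicAlgCl p).comp φ)
  have hML0 : ∀ x, ML x ≠ 0 := fun x => hM0 _ _
  have hST : S ∈ Halves inv := by
    rw [mem_Halves]
    rintro ⟨i, φ⟩
    rw [hmem, hmem]
    exact hΦ i ((e : L →+* PadicAlgCl p).comp φ)
  intro m π κ hκ hweil hslope Ω _ _ _ V _ _ _ F hF n t s c hn hs hc φ hφ
  have hq : ∀ i, (0 : ℚ) < (p : ℚ) ^ m i :=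
    fun i => pow_pos (by exact_mod_cast (Fact.out : p.Prime).pos) _
  have hp1 : (1 : ℝ) < p := by exact_mod_cast (Fact.out : p.Prime).one_lt
  have hlogp : (- Real.log p : ℝ) ≠ 0 := neg_ne_zero.2 (Real.log_pos hp1).ne'
  have h1 : ∀ i, - Real.logb p ‖((((p : ℚ) ^ m i : ℚ)) : PadicAlgCl p)‖ = m i := by
    intro i
    rw [norm_pow_cast, Real.logb_inv, Real.logb_pow, Real.logb_self_eq_one hp1]
    ring
  have hweil' : ∀ i, ∀ φ : K i →+* ℂ, ‖φ (π i)‖ ^ 2 = (((p : ℚ) ^ m i : ℚ) : ℝ) := by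
    intro i φ
    rw [hweil i φ]
    push_cast
    rfl
  -- the deviation
  have hdev : ∀ (x : X) (σ : L ≃ₐ[ℚ] L), dev p ((p : ℚ) ^ m x.1) (e (σ (x.2 (π x.1)))) =
      (- Real.log p * κ) * ws ML S (σ • x) := by
    rintro ⟨i, φ⟩ σ
    rw [dev_eq_val, h1]
    have h2 := hslope i ((e : L →+* PadicAlgCl p).comp (σ • φ))
    have h3 : ((e : L →+* PadicAlgCl p).comp (σ • φ)) (π i) = e (σ (φ (π i))) := rfl
    rw [h3] at h2
    change - Real.log p * (2 * (- Real.logb p ‖e (σ (φ (π i)))‖) - m i) = _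
    rw [h2]
    unfold ws
    have h4 : σ • (⟨i, φ⟩ : X) ∈ S ↔ (e : L →+* PadicAlgCl p).comp (σ • φ) ∈ Φ i := hmem _
    by_cases h5 : (e : L →+* PadicAlgCl p).comp (σ • φ) ∈ Φ i
    · rw [if_pos h5, if_pos (h4.2 h5)]
      change - Real.log p * (κ * M i ((e : L →+* PadicAlgCl p).comp (σ • φ))) =
        - Real.log p * κ * M i ((e : L →+* PadicAlgCl p).comp (σ • φ))
      ring
    · rw [if_neg h5, if_neg (fun h6 => h5 (h4.1 h6))]
      change - Real.log p * (κ * - M i ((e : L →+* PadicAlgCl p).comp (σ • φ))) =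
        - Real.log p * κ * - M i ((e : L →+* PadicAlgCl p).comp (σ • φ))
      ring
  have hfac : (- Real.log p * κ) ≠ 0 := mul_ne_zero hlogp hκ
  -- the field is generated
  have hgen : ∀ i, IntermediateField.adjoin ℚ {π i} = ⊤ := by
    intro i
    let τ₀ : K i →ₐ[ℚ] PadicAlgCl p := IsAlgClosed.lift
    rw [Field.primitive_element_iff_algHom_eq_of_eval ℚ (PadicAlgCl p)
      (fun x => IsAlgClosed.splits _) (π i) τ₀]
    intro τ hτ
    obtain ⟨φ, hφ1⟩ := lift_of K j hj e i (τ₀ : K i →+* PadicAlgCl p)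
    obtain ⟨ψ, hψ1⟩ := lift_of K j hj e i (τ : K i →+* PadicAlgCl p)
    have hφψ : φ (π i) = ψ (π i) := by
      apply e.injective
      have h2 := RingHom.congr_fun hφ1 (π i)
      have h3 := RingHom.congr_fun hψ1 (π i)
      exact (h2.trans hτ).trans h3.symm
    have hx := hfree (n := 2) hk ![⟨i, φ⟩, inv ⟨i, ψ⟩] (fun σ => by
      rw [Fin.sum_univ_two]
      change ws ML S (σ • (⟨i, φ⟩ : X)) + ws ML S (σ • inv (⟨i, ψ⟩ : X)) = 0
      rw [← hcomm, ws_inv hML hST]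
      have h2 := hdev ⟨i, φ⟩ σ
      have h3 := hdev ⟨i, ψ⟩ σ
      change dev p _ (e (σ (φ (π i)))) = _ at h2
      change dev p _ (e (σ (ψ (π i)))) = _ at h3
      rw [hφψ] at h2
      have h4 : (- Real.log p * κ) * ws ML S (σ • (⟨i, φ⟩ : X)) =
          (- Real.log p * κ) * ws ML S (σ • (⟨i, ψ⟩ : X)) := h2.symm.trans h3
      rw [mul_left_cancel₀ hfac h4]
      ring) ⟨i, φ⟩
    have hpos : 0 < (Finset.univ.filter (fun b : Fin 2 =>
        (![⟨i, φ⟩, inv ⟨i, ψ⟩] : Fin 2 → X) b = ⟨i, φ⟩)).card := by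
      rw [Finset.card_pos]
      exact ⟨0, by rw [Finset.mem_filter]; exact ⟨Finset.mem_univ _, rfl⟩⟩
    rw [hx, Finset.card_pos] at hpos
    obtain ⟨b, hb⟩ := hpos
    rw [Finset.mem_filter] at hb
    have hb2 := hb.2
    have hφψ' : φ = ψ := by
      fin_cases b
      · exact absurd (eq_of_heq (Sigma.mk.inj hb2).2).symm (cbar_ne φ)
      · have h2 : cbar ψ = cbar φ := eq_of_heq (Sigma.mk.inj hb2).2
        rw [← cbar_cbar φ, ← h2, cbar_cbar]
    ext x
    have h2 := RingHom.congr_fun hφ1 x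
    have h3 := RingHom.congr_fun hψ1 x
    rw [hφψ'] at h2
    exact h2.symm.trans h3
  have hcast : ∀ i, (((p : ℚ) ^ m i : ℚ) : Ω) = (p : Ω) ^ m i := by
    intro i
    push_cast
    rfl
  have h2 : (fun i => (p : Ω) ^ m i) = fun i => (((p : ℚ) ^ m i : ℚ) : Ω) :=
    funext fun i => (hcast i).symm
  rw [h2]
  refine form_mem p K j hj e (fun i => (p : ℚ) ^ m i) hq π hgen hweil' V F hF t ?_ s hs c
    (by rw [hc]; exact Finset.prod_congr rfl fun l _ => (hcast _).symm) φ hφ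
  intro W hW i ψ
  have hcnt := hfree hn (fun b => (⟨t b, W b⟩ : X)) (fun σ => by
    have h3 := hW σ
    have h4 : ∀ b, dev p ((p : ℚ) ^ m (t b)) (e (σ (W b (π (t b))))) =
        (- Real.log p * κ) * ws ML S (σ • (⟨t b, W b⟩ : X)) := fun b => hdev ⟨t b, W b⟩ σ
    rw [Finset.sum_congr rfl (fun b _ => h4 b), ← Finset.mul_sum] at h3
    exact (mul_eq_zero.1 h3).resolve_left hfac) ⟨i, ψ⟩
  rw [Nat.card_eq_fintype_card, Nat.card_eq_fintype_card, Fintype.card_subtype,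
    Fintype.card_subtype]
  exact hcnt

end Pool.Agent.TH170.FF
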