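import Mathlib
import Pool.Agent.TH170.CM.Weighted

/-!
# Bounds for the weighted sign functions
-/

namespace Pool.Agent.TH170.FF

open Finset Pool.Agent.TH170.CM

theorem weight_boundW {G : Type*} [CommGroup G] [Fintype G] {c : G} {g : ℕ} (hc : c * c = 1)
    (hg : Fintype.card G = 2 * g) {N : Subgroup G} (hN : N ∈ cyc c) :
    pr (Nat.card N) ^ N.index.totient ≤
      (if N.index = 2 then 1 / Real.sqrt g else 0) +
      (if N.index = 4 then 2 / (g : ℝ) else 0) + (if N.index = 6 then 3 / (g : ℝ) else 0) +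
      4 / (g : ℝ) ^ 2 * ((N.index : ℝ) ^ 2 / 2 ^ N.index.totient) := by
  classical
  obtain ⟨hcN, χ, hχ⟩ := hN
  obtain ⟨γ, hγ⟩ := exists_isGen χ
  rw [hχ] at hγ
  obtain ⟨h, hh, -⟩ := hγ.index_eq hc hcN
  have hpos := index_pos N
  have hn : 0 < Nat.card N := Nat.card_pos
  have hcard : N.index * Nat.card N = 2 * g := by
    rw [← hg, ← Nat.card_eq_fintype_card]
    exact N.index_mul_card
  have hg0 : 0 < g := by
    rcases Nat.eq_zero_or_pos g with h0 | h0
    · exfalso
      rw [h0, mul_zero] at hcard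
      have := Nat.mul_pos hpos hn
      omega
    · exact h0
  have hgR : (0 : ℝ) < g := by exact_mod_cast hg0
  generalize Nat.card N = n at *
  have hnR : (0 : ℝ) < n := by exact_mod_cast hn
  generalize N.index = m at *
  have hlast : 0 ≤ 4 / (g : ℝ) ^ 2 * ((m : ℝ) ^ 2 / 2 ^ m.totient) := by positivity
  by_cases h2 : m = 2
  · subst h2
    have hng : n = g := by omega
    rw [if_pos (rfl : 2 = 2), if_neg (by norm_num : ¬ (2 : ℕ) = 4),
      if_neg (by norm_num : ¬ (2 : ℕ) = 6), add_zero, add_zero]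
    have h4 : Nat.totient 2 = 1 := by decide
    rw [h4] at hlast ⊢
    rw [pow_one] at hlast ⊢
    have h5 := pr_le_sqrt hn
    rw [hng] at h5 ⊢
    linarith
  rw [if_neg h2, zero_add]
  by_cases h4 : m = 4
  · subst h4
    rw [if_pos rfl, if_neg (by norm_num), add_zero]
    have hng : (g : ℝ) = 2 * n := by
      have : g = 2 * n := by omega
      exact_mod_cast this
    have h5 : Nat.totient 4 = 2 := by decide
    rw [h5] at hlast ⊢
    have h6 := pr_sq_le hn
    have h7 : (2 : ℝ) / g = 1 / n := by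
      rw [hng]
      field_simp
    rw [h7]
    linarith
  rw [if_neg h4, zero_add]
  by_cases h6 : m = 6
  · subst h6
    rw [if_pos rfl]
    have hng : (g : ℝ) = 3 * n := by
      have : g = 3 * n := by omega
      exact_mod_cast this
    have h5 : Nat.totient 6 = 2 := by decide
    rw [h5] at hlast ⊢
    have h6 := pr_sq_le hn
    have h7 : (3 : ℝ) / g = 1 / n := by
      rw [hng]
      field_simp
    rw [h7]
    linarith
  rw [if_neg h6, zero_add]
  have ht := four_le_totient (m := m) ⟨h, by omega⟩ hpos h2 h4 h6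
  obtain ⟨t, ht'⟩ := Nat.exists_eq_add_of_le ht
  rw [ht']
  have h5 : pr n ^ (4 + t) ≤ (1 / (n : ℝ)) ^ 2 * (1 / 2) ^ t := by
    rw [pow_add, show (4 : ℕ) = 2 * 2 by norm_num, pow_mul]
    exact mul_le_mul (pow_le_pow_left₀ (by positivity) (pr_sq_le hn) 2)
      (pow_le_pow_left₀ (pr_nonneg n) (pr_le_half hn) t) (pow_nonneg (pr_nonneg n) _) (by positivity)
  refine h5.trans (le_of_eq ?_)
  have hmR : (m : ℝ) * n = 2 * g := by exact_mod_cast hcard
  have hm0 : (0 : ℝ) < m := by exact_mod_cast hpos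
  have h7 : (n : ℝ) = 2 * g / m := by
    field_simp
    linarith
  rw [h7, pow_add, one_div_pow 2 t]
  field_simp
  ring

/-- **The contributions of all imaginary cyclic subfields.** -/
theorem exists_boundW : ∃ C : ℝ, 0 ≤ C ∧ ∀ (G : Type) [CommGroup G] [Fintype G] (c : G) (g : ℕ),
    c * c = 1 → Fintype.card G = 2 * g →
    ∑ N ∈ (Set.toFinite (cyc c)).toFinset, pr (Nat.card N) ^ N.index.totient ≤
      (cycOf c 2).ncard / Real.sqrt g +
      (2 * (cycOf c 4).ncard + 3 * (cycOf c 6).ncard + C) / g := by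
  classical
  obtain ⟨C, hC0, hC⟩ := exists_sum
  refine ⟨8 * C, by positivity, fun G _ _ c g hc hg => ?_⟩
  have hg0 : 0 < g := by
    have : 0 < Fintype.card G := Fintype.card_pos
    omega
  have hgR : (0 : ℝ) < g := by exact_mod_cast hg0
  set S := (Set.toFinite (cyc c)).toFinset with hS
  have hmem : ∀ N ∈ S, N ∈ cyc c := fun N hN => by
    rw [hS, Set.Finite.mem_toFinset] at hN
    exact hN
  have h1 : ∑ N ∈ S, pr (Nat.card N) ^ N.index.totient ≤ ∑ N ∈ S,
      ((if N.index = 2 then 1 / Real.sqrt g else 0) +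
      (if N.index = 4 then 2 / (g : ℝ) else 0) + (if N.index = 6 then 3 / (g : ℝ) else 0) +
      4 / (g : ℝ) ^ 2 * ((N.index : ℝ) ^ 2 / 2 ^ N.index.totient)) :=
    Finset.sum_le_sum fun N hN => weight_boundW hc hg (hmem N hN)
  refine h1.trans ?_
  rw [Finset.sum_add_distrib, Finset.sum_add_distrib, Finset.sum_add_distrib]
  have hcnt : ∀ (m : ℕ) (x : ℝ), ∑ N ∈ S, (if N.index = m then x else 0) = (cycOf c m).ncard * x := by
    intro m x
    rw [← Finset.sum_filter, Finset.sum_const, nsmul_eq_mul]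
    congr 2
    rw [← Set.ncard_coe_finset]
    congr 1
    ext N
    rw [Finset.coe_filter]
    simp only [hS, Set.Finite.mem_toFinset, Set.mem_ofPred_eq, cycOf]
  rw [hcnt, hcnt, hcnt]
  have h2 : ∑ N ∈ S, 4 / (g : ℝ) ^ 2 * ((N.index : ℝ) ^ 2 / 2 ^ N.index.totient) ≤ 8 * C / g := by
    rw [← Finset.mul_sum]
    have h3 : ∑ N ∈ S, ((N.index : ℝ) ^ 2 / 2 ^ N.index.totient) ≤ (2 * g) * C := by
      have h4 : ∀ N ∈ S, N.index ∈ Finset.range (2 * g + 1) := by
        intro N _
        rw [Finset.mem_range, Nat.lt_succ_iff]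
        have h5 := N.index_mul_card
        rw [Nat.card_eq_fintype_card (α := G), hg] at h5
        exact Nat.le_of_dvd (by omega) (Dvd.intro _ h5)
      rw [← Finset.sum_fiberwise_of_maps_to h4]
      have h5 : ∀ m ∈ Finset.range (2 * g + 1), ∑ N ∈ S.filter (fun N => N.index = m),
          ((N.index : ℝ) ^ 2 / 2 ^ N.index.totient) ≤ (2 * g) * ((m : ℝ) ^ 2 / 2 ^ m.totient) := by
        intro m _
        have h6 : ∀ N ∈ S.filter (fun N => N.index = m),
            ((N.index : ℝ) ^ 2 / 2 ^ N.index.totient) = (m : ℝ) ^ 2 / 2 ^ m.totient := by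
          intro N hN
          rw [(Finset.mem_filter.1 hN).2]
        rw [Finset.sum_congr rfl h6, Finset.sum_const, nsmul_eq_mul]
        refine mul_le_mul_of_nonneg_right ?_ (by positivity)
        have h7 : (S.filter (fun N => N.index = m)).card ≤ 2 * g := by
          refine (Finset.card_filter_le _ _).trans ?_
          rw [← hg]
          refine le_trans (le_of_eq ?_) (ncard_cyc_le c)
          rw [hS, Set.ncard_eq_toFinset_card _ (Set.toFinite (cyc c))]
        exact_mod_cast h7
      refine (Finset.sum_le_sum h5).trans ?_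
      rw [← Finset.mul_sum]
      exact mul_le_mul_of_nonneg_left (hC _) (by positivity)
    calc 4 / (g : ℝ) ^ 2 * ∑ N ∈ S, ((N.index : ℝ) ^ 2 / 2 ^ N.index.totient)
        ≤ 4 / (g : ℝ) ^ 2 * ((2 * g) * C) := mul_le_mul_of_nonneg_left h3 (by positivity)
      _ = 8 * C / g := by
          field_simp
          ring
  have h3 : ((cycOf c 2).ncard : ℝ) * (1 / Real.sqrt g) = (cycOf c 2).ncard / Real.sqrt g := by
    rw [mul_one_div]
  rw [h3]
  have h4 : (2 * (cycOf c 4).ncard + 3 * (cycOf c 6).ncard + 8 * C) / (g : ℝ) =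
      (cycOf c 4).ncard * (2 / (g : ℝ)) + (cycOf c 6).ncard * (3 / (g : ℝ)) + 8 * C / g := by
    ring
  rw [h4]
  linarith

end Pool.Agent.TH170.FF
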