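import Mathlib
import Pool.Agent.TH170.FF.Free
import Pool.Agent.TH170.FF.Bound
import Pool.Agent.TH170.CM.Cor

/-!
# The slope types of abelian CM fields with exceptional Tate classes
-/

set_option linter.unusedSectionVars false
set_option linter.unusedVariables false

namespace Pool.Agent.TH170.FF

open NumberField Module Finset Pool.Agent.H204R3.CM Pool.Agent.W548.Sh Pool.Agent.W548.Tt
  Pool.Agent.TH170.CM

open scoped IsMulCommutative

section

variable {p : ℕ} [Fact p.Prime] {K : Type} [Field K] [NumberField K] [IsCMField K]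

open Classical in
/-- The weighted sign function on the Galois group. -/
noncomputable def uw (τ₀ : K →+* PadicAlgCl p) (M : (K →+* PadicAlgCl p) → ℤ)
    (Φ : Set (K →+* PadicAlgCl p)) (g : K ≃ₐ[ℚ] K) : ℤ :=
  if τ₀.comp (g : K →+* K) ∈ Φ then M (τ₀.comp (g : K →+* K)) else - M (τ₀.comp (g : K →+* K))

variable [IsAbelianGalois ℚ K]

theorem coe_conjQ_mul (g : K ≃ₐ[ℚ] K) :
    ((conjQ K * g : K ≃ₐ[ℚ] K) : K →+* K) = cbar (g : K →+* K) := by
  rw [mul_comm]
  rfl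

theorem comp_conjQ_padic (τ₀ : K →+* PadicAlgCl p) (g : K ≃ₐ[ℚ] K) :
    τ₀.comp ((conjQ K * g : K ≃ₐ[ℚ] K) : K →+* K) = cbar (τ₀.comp (g : K →+* K)) := by
  rw [mul_comm]
  rfl

theorem isSgnW_uw (τ₀ : K →+* PadicAlgCl p)
    {M : (K →+* PadicAlgCl p) → ℤ} (hM : ∀ τ, M (cbar τ) = M τ) {Φ : Set (K →+* PadicAlgCl p)}
    (hΦ : IsPadicType p Φ) :
    IsSgnW (conjQ K) (fun g => M (τ₀.comp (g : K →+* K))) (uw τ₀ M Φ) := by
  constructor
  · intro g
    unfold uw
    split_ifs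
    · exact Or.inl rfl
    · exact Or.inr rfl
  · intro g
    unfold uw
    rw [comp_conjQ_padic, hM]
    by_cases h : τ₀.comp (g : K →+* K) ∈ Φ
    · rw [if_pos h, if_neg ((hΦ _).1 h)]
    · rw [if_neg h, if_pos, neg_neg]
      rw [hΦ (cbar _), cbar_cbar]
      exact h

theorem end_bijective :
    Function.Bijective (fun g : K ≃ₐ[ℚ] K => (g : K →+* K)) := by
  constructor
  · intro g g' h
    ext x
    exact RingHom.congr_fun h x
  · intro φ
    obtain ⟨φ₀⟩ : Nonempty (K →+* ℂ) := inferInstance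
    obtain ⟨g, hg⟩ := (emb_bijective φ₀).2 (φ₀.comp φ)
    refine ⟨g, ?_⟩
    ext x
    exact φ₀.injective (RingHom.congr_fun hg x)

theorem padic_bijective (τ₀ : K →+* PadicAlgCl p) :
    Function.Bijective (fun g : K ≃ₐ[ℚ] K => τ₀.comp (g : K →+* K)) := by
  obtain ⟨φ₀⟩ : Nonempty (K →+* ℂ) := inferInstance
  let e : K →ₐ[ℚ] PadicAlgCl p := RingHom.toRatAlgHom τ₀
  constructor
  · intro g g' h
    ext x
    exact τ₀.injective (RingHom.congr_fun h x)
  · intro φ
    obtain ⟨φ', hφ'⟩ := lift_of (fun _ : Unit => K) φ₀ (fun _ ψ => by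
      obtain ⟨g, hg⟩ := (emb_bijective φ₀).2 ψ
      exact ⟨(g : K →+* K), hg⟩) e () φ
    obtain ⟨g, hg⟩ := (end_bijective (K := K)).2 φ'
    refine ⟨g, ?_⟩
    rw [← hφ', ← hg]
    rfl

theorem card_filter_inst {A : Type} [Fintype A] (q : A → Prop) (i1 i2 : DecidablePred q) :
    (@Finset.filter A q i1 Finset.univ).card = (@Finset.filter A q i2 Finset.univ).card := by
  rw [Subsingleton.elim i1 i2]

theorem ws_inst {X : Type} (i1 i2 : DecidableEq X) (w : X → ℝ) (S : Finset X) (x : X) :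
    @ws X i1 w S x = @ws X i2 w S x := by
  rw [Subsingleton.elim i1 i2]

/-- Types without degenerate characters have no exceptional Tate classes. -/
theorem tate_of_not_deg (τ₀ : K →+* PadicAlgCl p)
    {M : (K →+* PadicAlgCl p) → ℤ} (hM : ∀ τ, M (cbar τ) = M τ) (hM0 : ∀ τ, M τ ≠ 0)
    {Φ : Set (K →+* PadicAlgCl p)} (hΦ : IsPadicType p Φ)
    (hnd : ∀ N : Subgroup (K ≃ₐ[ℚ] K), conjQ K ∉ N → ¬ DegAt N (uw τ₀ M Φ)) (k : ℕ)
    (hk : 2 ≤ k) :
    TateUpTo p (fun _ : Unit => K) (fun _ τ => (M τ : ℝ)) (fun _ => Φ) k := by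
  classical
  obtain ⟨φ₀⟩ : Nonempty (K →+* ℂ) := inferInstance
  let e : K →ₐ[ℚ] PadicAlgCl p := RingHom.toRatAlgHom τ₀
  have he : (e : K →+* PadicAlgCl p) = τ₀ := rfl
  let X : Type := Σ _ : Unit, (K →+* K)
  let S : Finset X := Finset.univ.filter (fun x : X => (e : K →+* PadicAlgCl p).comp x.2 ∈ Φ)
  have hmem : ∀ x : X, x ∈ S ↔ (e : K →+* PadicAlgCl p).comp x.2 ∈ Φ := fun x => by
    simp only [S, Finset.mem_filter, Finset.mem_univ, true_and]
  refine tateUpTo_of_free p (fun _ : Unit => K) φ₀ (fun _ ψ => by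
      obtain ⟨g, hg⟩ := (emb_bijective φ₀).2 ψ
      exact ⟨(g : K →+* K), hg⟩) e k hk (fun _ τ => (M τ : ℝ))
    (fun _ τ => by rw [hM]) (fun _ τ => by exact_mod_cast hM0 τ) (fun _ => Φ) (fun _ => hΦ) S hmem ?_
  intro n hn x hx y
  by_contra hne
  let emb : (K ≃ₐ[ℚ] K) → X := fun g => ⟨(), (g : K →+* K)⟩
  have hemb : Function.Bijective emb := by
    constructor
    · intro g g' h
      exact end_bijective.1 (eq_of_heq (Sigma.mk.inj h).2)
    · rintro ⟨⟨⟩, φ⟩
      obtain ⟨g, hg⟩ := (end_bijective (K := K)).2 φ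
      exact ⟨g, by simp only [emb]; rw [← hg]⟩
  let cn : X → ℤ := fun z => ((Finset.univ.filter (fun b => x b = z)).card : ℤ)
  let inv : X → X := fun z => ⟨z.1, cbar z.2⟩
  have hinv : ∀ z, inv (inv z) = z := by
    rintro ⟨i, φ⟩
    simp only [inv, cbar_cbar]
  have hembc : ∀ g, emb (conjQ K * g) = inv (emb g) := by
    intro g
    simp only [emb, inv, coe_conjQ_mul]
  let r : (K ≃ₐ[ℚ] K) → ℤ := fun g => cn (emb g) - cn (inv (emb g))
  obtain ⟨g₀, hg₀⟩ := hemb.2 y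
  have hr : r ≠ 0 := by
    intro h
    have h1 : r g₀ = 0 := congrFun h g₀
    simp only [r, hg₀] at h1
    apply hne
    have h2 : cn y = cn (inv y) := by omega
    have h3 : (Finset.univ.filter (fun b => x b = y)).card =
        (Finset.univ.filter (fun b => x b = inv y)).card := Nat.cast_injective (R := ℤ) h2
    exact (card_filter_inst _ _ _).trans (h3.trans (card_filter_inst _ _ _))
  have hodd : ∀ g, r (conjQ K * g) = - r g := by
    intro g
    simp only [r, hembc, hinv]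
    ring
  -- the value of the sign function
  have hws : ∀ (s g : K ≃ₐ[ℚ] K), ((uw τ₀ M Φ (s * g) : ℤ) : ℝ) =
      ws (fun z : X => (M ((e : K →+* PadicAlgCl p).comp z.2) : ℝ)) S (s • emb g) := by
    intro s g
    unfold ws uw
    have h1 : s • emb g ∈ S ↔ τ₀.comp ((s * g : K ≃ₐ[ℚ] K) : K →+* K) ∈ Φ := hmem _
    by_cases h2 : τ₀.comp ((s * g : K ≃ₐ[ℚ] K) : K →+* K) ∈ Φ
    · rw [if_pos h2, if_pos (h1.2 h2)]
      rfl
    · rw [if_neg h2, if_neg (fun h3 => h2 (h1.1 h3))]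
      push_cast
      rfl
  have hsum : ∀ s : K ≃ₐ[ℚ] K, ∑ g, cn (emb g) * uw τ₀ M Φ (s * g) = 0 := by
    intro s
    have h1 := hx s
    have h2 : ((∑ g, cn (emb g) * uw τ₀ M Φ (s * g) : ℤ) : ℝ) =
        ∑ b, ws (fun z : X => (M ((e : K →+* PadicAlgCl p).comp z.2) : ℝ)) S (s • x b) := by
      push_cast
      rw [Finset.sum_congr rfl (fun g _ => by rw [hws s g])]
      rw [Function.Bijective.sum_comp hemb (fun z : X => (cn z : ℝ) *
        ws (fun z : X => (M ((e : K →+* PadicAlgCl p).comp z.2) : ℝ)) S (s • z))]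
      have h3 : ∀ z : X, (cn z : ℝ) *
          ws (fun z : X => (M ((e : K →+* PadicAlgCl p).comp z.2) : ℝ)) S (s • z) =
          ∑ b, if x b = z then
            ws (fun z : X => (M ((e : K →+* PadicAlgCl p).comp z.2) : ℝ)) S (s • z) else 0 := by
        intro z
        rw [← Finset.sum_filter, Finset.sum_const, nsmul_eq_mul]
        simp only [cn, Int.cast_natCast]
      rw [Finset.sum_congr rfl (fun z _ => h3 z), Finset.sum_comm]
      refine Finset.sum_congr rfl fun b _ => ?_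
      rw [Finset.sum_ite_eq Finset.univ (x b), if_pos (Finset.mem_univ _)]
    have h4 : ((∑ g, cn (emb g) * uw τ₀ M Φ (s * g) : ℤ) : ℝ) = 0 := by
      rw [h2]
      exact (Finset.sum_congr rfl (fun b _ => ws_inst _ _ _ _ _)).trans h1
    exact_mod_cast h4
  have hrel : ∀ s, ∑ g, r g * uw τ₀ M Φ (s * g) = 0 := by
    intro s
    have h1 : ∑ g, cn (inv (emb g)) * uw τ₀ M Φ (s * g) =
        - ∑ g, cn (emb g) * uw τ₀ M Φ (s * g) := by
      rw [← Equiv.sum_comp (Equiv.mulLeft (conjQ K)) (fun g =>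
        cn (inv (emb g)) * uw τ₀ M Φ (s * g)), ← Finset.sum_neg_distrib]
      refine Finset.sum_congr rfl fun g _ => ?_
      change cn (inv (emb (conjQ K * g))) * uw τ₀ M Φ (s * (conjQ K * g)) = _
      rw [hembc, hinv, mul_left_comm s, (isSgnW_uw τ₀ hM hΦ).2]
      ring
    simp only [r, sub_mul, Finset.sum_sub_distrib]
    rw [h1, hsum]
    simp
  obtain ⟨N, hN, hdeg⟩ := exists_degAt conjQ_mul (uw τ₀ M Φ) r hr hodd hrel
  exact hnd N hN hdeg

theorem tateUpTo_mono {k k' : ℕ} (h : k ≤ k') {M : (K →+* PadicAlgCl p) → ℝ}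
    {Φ : Set (K →+* PadicAlgCl p)}
    (ht : TateUpTo p (fun _ : Unit => K) (fun _ => M) (fun _ => Φ) k') :
    TateUpTo p (fun _ : Unit => K) (fun _ => M) (fun _ => Φ) k := by
  intro m π κ hκ hweil hslope Ω _ _ _ V _ _ _ F hF n t s c hn
  exact ht m π κ hκ hweil hslope Ω V F hF n t s c (hn.trans h)

/-- Multiplication of the weights by a positive number. -/
theorem tateUpTo_scale {k : ℕ} {M M' : (K →+* PadicAlgCl p) → ℝ} {D : ℝ} (hD : D ≠ 0)
    (hM : ∀ τ, M' τ = D * M τ) {Φ : Set (K →+* PadicAlgCl p)}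
    (ht : TateUpTo p (fun _ : Unit => K) (fun _ => M') (fun _ => Φ) k) :
    TateUpTo p (fun _ : Unit => K) (fun _ => M) (fun _ => Φ) k := by
  intro m π κ hκ hweil hslope
  refine ht m π (κ / D) (div_ne_zero hκ hD) hweil (fun i τ => ?_)
  rw [hslope i τ]
  simp only [hM]
  split_ifs
  · field_simp
  · field_simp

end

section count

variable (p : ℕ) [Fact p.Prime] (K : Type) [Field K] [NumberField K] [IsCMField K]
  [IsAbelianGalois ℚ K]

theorem ncard_group (M : (K →+* PadicAlgCl p) → ℚ) (hM : ∀ τ, M (cbar τ) = M τ)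
    (hM0 : ∀ τ, M τ ≠ 0) :
    ({Φ : Set (K →+* PadicAlgCl p) | IsPadicType p Φ ∧
      ¬ ∀ k, TateUpTo p (fun _ : Unit => K) (fun _ τ => (M τ : ℝ)) (fun _ => Φ) k}.ncard : ℝ) ≤
      2 ^ (finrank ℚ K / 2) * ∑ N ∈ (Set.toFinite (cyc (conjQ K))).toFinset,
        pr (Nat.card N) ^ N.index.totient := by
  classical
  let τ₀ : K →+* PadicAlgCl p := ((IsAlgClosed.lift : K →ₐ[ℚ] PadicAlgCl p) : K →+* PadicAlgCl p)
  have hfinK : Finite (K →+* PadicAlgCl p) :=
    Finite.of_surjective _ (padic_bijective τ₀).2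
  have hfint : Fintype (K →+* PadicAlgCl p) := Fintype.ofFinite _
  -- the common denominator
  obtain ⟨D, hD0, M', hM'⟩ : ∃ D : ℕ, D ≠ 0 ∧ ∃ M' : (K →+* PadicAlgCl p) → ℤ,
      ∀ τ, (M' τ : ℚ) = D * M τ := by
    refine ⟨∏ τ, (M τ).den, Finset.prod_ne_zero_iff.2 (fun τ _ => (M τ).den_nz),
      fun τ => (∏ τ' ∈ Finset.univ.erase τ, (M τ').den : ℕ) * (M τ).num, fun τ => ?_⟩
    rw [← Finset.prod_erase_mul _ _ (Finset.mem_univ τ)]
    push_cast
    rw [mul_assoc, Rat.den_mul_eq_num]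
  have hM'c : ∀ τ, M' (cbar τ) = M' τ := by
    intro τ
    have h1 : (M' (cbar τ) : ℚ) = M' τ := by rw [hM', hM', hM]
    exact_mod_cast h1
  have hM'0 : ∀ τ, M' τ ≠ 0 := by
    intro τ h
    have h1 := hM' τ
    rw [h, Int.cast_zero] at h1
    rcases mul_eq_zero.1 h1.symm with h2 | h2
    · exact hD0 (by exact_mod_cast h2)
    · exact hM0 τ h2
  have hcard : Fintype.card (K ≃ₐ[ℚ] K) = finrank ℚ K := by
    rw [← Nat.card_eq_fintype_card]
    exact IsGalois.card_aut_eq_finrank ℚ K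
  set W : (K ≃ₐ[ℚ] K) → ℤ := fun g => M' (τ₀.comp (g : K →+* K)) with hW
  have hfinu : {u : (K ≃ₐ[ℚ] K) → ℤ | IsSgnW (conjQ K) W u ∧
      ∃ N : Subgroup (K ≃ₐ[ℚ] K), conjQ K ∉ N ∧ DegAt N u}.Finite := by
    refine Set.Finite.subset (Set.Finite.pi' (fun g : K ≃ₐ[ℚ] K => (Set.finite_insert.2
      (Set.finite_singleton (-W g)) : ({W g, -W g} : Set ℤ).Finite))) ?_
    intro u hu g
    rcases hu.1.1 g with h | h
    · exact Or.inl h
    · exact Or.inr h
  have h1 : {Φ : Set (K →+* PadicAlgCl p) | IsPadicType p Φ ∧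
      ¬ ∀ k, TateUpTo p (fun _ : Unit => K) (fun _ τ => (M τ : ℝ)) (fun _ => Φ) k}.ncard ≤
      {u : (K ≃ₐ[ℚ] K) → ℤ | IsSgnW (conjQ K) W u ∧
      ∃ N : Subgroup (K ≃ₐ[ℚ] K), conjQ K ∉ N ∧ DegAt N u}.ncard := by
    refine Set.ncard_le_ncard_of_injOn (uw τ₀ M') ?_ ?_ hfinu
    · rintro Φ ⟨hΦ, hnot⟩
      refine ⟨isSgnW_uw τ₀ hM'c hΦ, ?_⟩
      by_contra hcon
      push Not at hcon
      apply hnot
      intro k
      refine tateUpTo_mono (le_max_left k 2) ?_
      refine tateUpTo_scale (D := (D : ℝ)) (M' := fun τ => (M' τ : ℝ)) (by exact_mod_cast hD0)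
        (fun τ => ?_) (tate_of_not_deg τ₀ hM'c hM'0 hΦ hcon (max k 2) (le_max_right k 2))
      have h2 := hM' τ
      have h3 : ((M' τ : ℚ) : ℝ) = ((D * M τ : ℚ) : ℝ) := by rw [h2]
      push_cast at h3
      exact h3
    · rintro Φ ⟨hΦ, -⟩ Φ' ⟨hΦ', -⟩ h
      ext τ
      obtain ⟨g, rfl⟩ := (padic_bijective τ₀).2 τ
      have h2 := congrFun h g
      unfold uw at h2
      have h3 := hM'0 (τ₀.comp (g : K →+* K))
      simp only at h2 ⊢
      by_cases h4 : τ₀.comp (g : K →+* K) ∈ Φ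
      · rw [if_pos h4] at h2
        by_cases h5 : τ₀.comp (g : K →+* K) ∈ Φ'
        · exact ⟨fun _ => h5, fun _ => h4⟩
        · rw [if_neg h5] at h2
          exfalso
          apply h3
          omega
      · rw [if_neg h4] at h2
        by_cases h5 : τ₀.comp (g : K →+* K) ∈ Φ'
        · rw [if_pos h5] at h2
          exfalso
          apply h3
          omega
        · exact ⟨fun h6 => absurd h6 h4, fun h6 => absurd h6 h5⟩
  have h2 := ncard_degW (G := K ≃ₐ[ℚ] K) (M := W) (fun g => hM'0 _) (c := conjQ K) conjQ_mul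
  rw [hcard] at h2
  exact (Nat.cast_le.2 h1).trans h2

end count

end Pool.Agent.TH170.FF
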